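import Pool.Agent.Lib.MP_464db4_gt.TF.Defs
import Pool.Agent.Lib.MP_464db4_gt.KG.Mean

/-!
# TF-Mean: means and the action of the group
Port of the first part of KG/Mean.lean, `T.ρ γ` (real-linear) taking the place of `rho γ (T.A γ)`; `mean_shift`, `exists_cmean`, `IsMean.exists_compact` of KG/Mean are general and are used from there.
-/

namespace TFam

open Complex Matrix MeasureTheory YT
open scoped ContDiff ComplexConjugate ComplexOrder

variable {κ : Type} [Fintype κ] [DecidableEq κ] {Γ : Subgroup (Matrix.SpecialLinearGroup (Fin 2) ℝ)} {T : TorusFamily κ Γ}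
  {μ : Measure (κ → ℂ)}

theorem rho_continuous (γ : Γ) : Continuous (T.ρ γ) := (T.ρ γ).continuous_of_finiteDimensional

theorem rho_mem (γ : Γ) {v : κ → ℂ} (hv : v ∈ T.Λ) : T.ρ γ v ∈ T.Λ := by
  have h : T.ρ γ v ∈ T.ρ γ '' (T.Λ : Set (κ → ℂ)) := Set.mem_image_of_mem _ hv
  rw [T.pres γ] at h
  exact h

theorem rho_surj (γ : Γ) (w : κ → ℂ) : ∃ v, T.ρ γ v = w := by
  have h3 : Submodule.map (T.ρ γ) (Submodule.span ℝ (T.Λ : Set (κ → ℂ))) = ⊤ := by
    rw [Submodule.map_span, T.pres γ, T.span]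
  have hw : w ∈ Submodule.map (T.ρ γ) (Submodule.span ℝ (T.Λ : Set (κ → ℂ))) := by
    rw [h3]
    exact Submodule.mem_top
  obtain ⟨v, -, hv⟩ := hw
  exact ⟨v, hv⟩

theorem isMean_rho (γ : Γ) (h : IsMean T.Λ μ) : IsMean T.Λ (μ.map (T.ρ γ)) := by
  have hprob := h.prob
  set L : (κ → ℂ) →L[ℝ] (κ → ℂ) := LinearMap.toContinuousLinearMap (T.ρ γ) with hL
  have hLA : ∀ v, L v = T.ρ γ v := fun v => rfl
  have hcont : Continuous (T.ρ γ) := rho_continuous γ
  have hmeas : Measurable (T.ρ γ) := hcont.measurable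
  refine ⟨Measure.isProbabilityMeasure_map hmeas.aemeasurable, ?_, ?_⟩
  · obtain ⟨R, hR⟩ := h.bdd
    refine ⟨‖L‖ * R, ?_⟩
    rw [ae_map_iff hmeas.aemeasurable (measurableSet_le measurable_norm measurable_const)]
    filter_upwards [hR] with a ha
    rw [← hLA a]
    exact (L.le_opNorm a).trans (mul_le_mul_of_nonneg_left ha (norm_nonneg L))
  · intro u hu hp z
    obtain ⟨w, hw⟩ := rho_surj (T := T) γ z
    have hu' : Continuous (fun a : κ → ℂ => u (z + a)) := hu.comp (continuous_const.add continuous_id)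
    rw [integral_map (f := fun a : κ → ℂ => u (z + a)) hmeas.aemeasurable hu'.aestronglyMeasurable,
      integral_map hmeas.aemeasurable hu.aestronglyMeasurable]
    have h3 := h.mean (fun a => u (T.ρ γ a)) (hu.comp hcont) (by
      intro v hv a
      show u (T.ρ γ (a + v)) = u (T.ρ γ a)
      rw [map_add]
      exact hp _ (rho_mem γ hv) _) w
    rw [← h3]
    congr 1
    ext a
    show u (z + T.ρ γ a) = u (T.ρ γ (w + a))
    rw [map_add, hw]

theorem mean_rho (γ : Γ) (h : IsMean T.Λ μ) {u : (κ → ℂ) → ℂ} (hu : Continuous u) (hp : ∀ v ∈ T.Λ, ∀ a, u (a + v) = u a) :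
    ∫ v, u (T.ρ γ v) ∂μ = ∫ v, u v ∂μ := by
  have hcont : Continuous (T.ρ γ) := rho_continuous γ
  rw [isMean_unique h (isMean_rho γ h) hu hp, integral_map hcont.measurable.aemeasurable hu.aestronglyMeasurable]

/-- The mean of the period vectors is zero if the barycentre of `μ` is zero. -/
theorem mean_per (h : IsMean T.Λ μ) (hc : ∀ k, ∫ v, v k ∂μ = 0) (b : Unit → ℂ) (l : κ) : ∫ v, T.per b v l ∂μ = 0 := by
  have hprob := h.prob
  have hre : ∀ k, ∫ v : κ → ℂ, (((v k).re : ℝ) : ℂ) ∂μ = 0 := by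
    intro k
    have h3 : ∫ v : κ → ℂ, RCLike.re (v k) ∂μ = RCLike.re (∫ v : κ → ℂ, v k ∂μ) :=
      integral_re (h.integrable (continuous_apply k))
    have h4 : ∫ v : κ → ℂ, (v k).re ∂μ = 0 := by
      rw [hc k] at h3
      simpa using h3
    have h5 : ∫ v : κ → ℂ, (((v k).re : ℝ) : ℂ) ∂μ = ((∫ v : κ → ℂ, (v k).re ∂μ : ℝ) : ℂ) := integral_ofReal
    rw [h5, h4, Complex.ofReal_zero]
  have him : ∀ k, ∫ v : κ → ℂ, (((v k).im : ℝ) : ℂ) ∂μ = 0 := by
    intro k
    have h3 : ∫ v : κ → ℂ, RCLike.im (v k) ∂μ = RCLike.im (∫ v : κ → ℂ, v k ∂μ) :=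
      integral_im (h.integrable (continuous_apply k))
    have h4 : ∫ v : κ → ℂ, (v k).im ∂μ = 0 := by
      rw [hc k] at h3
      simpa using h3
    have h5 : ∫ v : κ → ℂ, (((v k).im : ℝ) : ℂ) ∂μ = ((∫ v : κ → ℂ, (v k).im ∂μ : ℝ) : ℂ) := integral_ofReal
    rw [h5, h4, Complex.ofReal_zero]
  have hcre : ∀ k, Continuous fun v : κ → ℂ => T.Z₁ b l k * (((v k).re : ℝ) : ℂ) := fun k =>
    continuous_const.mul (Complex.continuous_ofReal.comp (Complex.continuous_re.comp (continuous_apply k)))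
  have hcim : ∀ k, Continuous fun v : κ → ℂ => T.Z₂ b l k * (((v k).im : ℝ) : ℂ) := fun k =>
    continuous_const.mul (Complex.continuous_ofReal.comp (Complex.continuous_im.comp (continuous_apply k)))
  have e : ∀ v : κ → ℂ, T.per b v l = ∑ k, T.Z₁ b l k * (((v k).re : ℝ) : ℂ) + ∑ k, T.Z₂ b l k * (((v k).im : ℝ) : ℂ) :=
    fun v => rfl
  simp only [e]
  rw [integral_add (h.integrable (continuous_finsetSum _ fun k _ => hcre k))
    (h.integrable (continuous_finsetSum _ fun k _ => hcim k)),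
    integral_finsetSum _ (fun k _ => h.integrable (hcre k)), integral_finsetSum _ (fun k _ => h.integrable (hcim k))]
  simp only [integral_const_mul, hre, him, mul_zero, Finset.sum_const_zero, add_zero]

end TFam
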