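import Pool.Agent.Lib.MP_464db4_gt.KG.Par
import Pool.Agent.Lib.MP_464db4_gt.TF.Pb
import Pool.Agent.Lib.MP_464db4_gt.TF.Mean

/-!
# TF-Avg: the average over the real translations
`kavg T μ g x i j = ∫ pbt T v g x i j dμ(v)` is Kaehler, invariant under all real translations and under the maps of the total space.
-/

namespace TFam

open Complex Matrix MeasureTheory YT
open scoped ContDiff ComplexConjugate ComplexOrder

variable {κ : Type} [Fintype κ] [DecidableEq κ] {Γ : Subgroup (Matrix.SpecialLinearGroup (Fin 2) ℝ)} {T : TorusFamily κ Γ}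
  {g : (Unit ⊕ κ → ℂ) → Matrix (Unit ⊕ κ) (Unit ⊕ κ) ℂ} {μ : Measure (κ → ℂ)}

/-- The average of the translates of `g`. -/
noncomputable def kavg (T : TorusFamily κ Γ) (μ : Measure (κ → ℂ)) (g : (Unit ⊕ κ → ℂ) → Matrix (Unit ⊕ κ) (Unit ⊕ κ) ℂ) (x : Unit ⊕ κ → ℂ) :
    Matrix (Unit ⊕ κ) (Unit ⊕ κ) ℂ :=
  Matrix.of fun i j => ∫ v, pbt T v g x i j ∂μ

omit [Fintype κ] [DecidableEq κ] in
private theorem kavg_entry {α β : Type} [Fintype α] [Fintype β] (J : Matrix α β ℂ) (M : (κ → ℂ) → Matrix α α ℂ)
    (hM : ∀ k l, Integrable (fun v => M v k l) μ) (i j : β) :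
    (Jᵀ * (Matrix.of fun k l => ∫ v, M v k l ∂μ) * mconj J) i j = ∫ v, (Jᵀ * M v * mconj J) i j ∂μ := by
  rw [conj_entry]
  have hint : ∀ k l, Integrable (fun v : κ → ℂ => J k i * M v k l * conj (J l j)) μ := fun k l =>
    ((hM k l).const_mul _).mul_const _
  have h2 : ∀ k l, J k i * (Matrix.of fun k l => ∫ v, M v k l ∂μ) k l * conj (J l j) =
      ∫ v, J k i * M v k l * conj (J l j) ∂μ := by
    intro k l
    rw [Matrix.of_apply, integral_mul_const, integral_const_mul]
  simp only [h2]
  have h3 : ∑ k, ∑ l, ∫ v, J k i * M v k l * conj (J l j) ∂μ =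
      ∫ v, ∑ k, ∑ l, J k i * M v k l * conj (J l j) ∂μ := by
    rw [integral_finsetSum _ fun k _ => integrable_finsetSum _ fun l _ => hint k l]
    refine Finset.sum_congr rfl fun k _ => ?_
    rw [integral_finsetSum _ fun l _ => hint k l]
  rw [h3]
  refine integral_congr_ae (Filter.Eventually.of_forall fun v => ?_)
  show _ = (Jᵀ * M v * mconj J) i j
  rw [conj_entry]

theorem pbt_cont (hg : IsKahler (tot κ halfPlane) T.total g) {x : Unit ⊕ κ → ℂ} (hx : x ∈ tot κ halfPlane) (i j : Unit ⊕ κ) :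
    Continuous (fun v => pbt T v g x i j) := by
  have h := (pbt_joint (T := T) hg i j).continuousOn
  exact h.comp_continuous (f := fun v : κ → ℂ => (x, v)) (by fun_prop) fun v => ⟨hx, Set.mem_univ v⟩

theorem kavg_isKahler0 (hμ : IsMean T.Λ μ) (hg : IsKahler (tot κ halfPlane) T.total g) :
    IsKahler (tot κ halfPlane) ∅ (kavg T μ g) := by
  have hU : IsOpen (tot κ halfPlane) := isOpen_tot isOpen_halfPlane
  have hprob := hμ.prob
  obtain ⟨K, hK, hKμ⟩ := hμ.exists_compact
  refine ⟨?_, ?_, ?_, ?_⟩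
  · intro i j
    exact par_smooth hU hK hKμ (pbt_joint (T := T) hg i j)
  · intro x hx
    have hc : ∀ i j, Continuous (fun v : κ → ℂ => pbt T v g x i j) := fun i j => pbt_cont hg hx i j
    have hi : ∀ i j, Integrable (fun v : κ → ℂ => pbt T v g x i j) μ := fun i j => hμ.integrable (hc i j)
    have hpd : ∀ v : κ → ℂ, (pbt T v g x).PosDef := fun v => (pbt_isKahler (T := T) hg v).pos x hx
    rw [Matrix.posDef_iff_dotProduct_mulVec]
    constructor
    · ext i j
      rw [Matrix.conjTranspose_apply]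
      change star (∫ a, pbt T a g x j i ∂μ) = ∫ a, pbt T a g x i j ∂μ
      have h1 : star (∫ a, pbt T a g x j i ∂μ) = ∫ a, (starRingEnd ℂ) (pbt T a g x j i) ∂μ :=
        integral_conj.symm
      rw [h1]
      refine integral_congr_ae (Filter.Eventually.of_forall fun a => ?_)
      have h2 := (hpd a).isHermitian
      exact h2.apply i j
    · intro y hy
      have h1 : star y ⬝ᵥ (kavg T μ g x *ᵥ y) = ∫ a, star y ⬝ᵥ (pbt T a g x *ᵥ y) ∂μ := by
        simp only [dotProduct, mulVec]
        rw [integral_finsetSum]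
        · refine Finset.sum_congr rfl fun i _ => ?_
          rw [integral_const_mul]
          congr 1
          rw [integral_finsetSum]
          · refine Finset.sum_congr rfl fun j _ => ?_
            rw [integral_mul_const]
            rfl
          · exact fun j _ => (hi i j).mul_const _
        · exact fun i _ => (integrable_finsetSum _ fun j _ => (hi i j).mul_const _).const_mul _
      have hq : ∀ a : κ → ℂ, 0 < star y ⬝ᵥ (pbt T a g x *ᵥ y) := fun a =>
        (Matrix.posDef_iff_dotProduct_mulVec.1 (hpd a)).2 hy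
      have hqc : Continuous (fun a : κ → ℂ => star y ⬝ᵥ (pbt T a g x *ᵥ y)) := by
        simp only [dotProduct, mulVec]
        exact continuous_finsetSum _ fun i _ => continuous_const.mul
          (continuous_finsetSum _ fun j _ => (hc i j).mul continuous_const)
      have hqi : Integrable (fun a : κ → ℂ => (star y ⬝ᵥ (pbt T a g x *ᵥ y)).re) μ :=
        (hμ.integrable hqc).re
      have h2 : ∀ a : κ → ℂ, star y ⬝ᵥ (pbt T a g x *ᵥ y) = (((star y ⬝ᵥ (pbt T a g x *ᵥ y)).re : ℝ) : ℂ) := by
        intro a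
        have := (Complex.lt_def.1 (hq a)).2
        apply Complex.ext
        · rw [Complex.ofReal_re]
        · rw [Complex.ofReal_im, ← this, Complex.zero_im]
      have h3 : 0 < ∫ a, (star y ⬝ᵥ (pbt T a g x *ᵥ y)).re ∂μ := by
        rw [integral_pos_iff_support_of_nonneg (fun a => (Complex.lt_def.1 (hq a)).1.le) hqi]
        have h4 : Function.support (fun a : κ → ℂ => (star y ⬝ᵥ (pbt T a g x *ᵥ y)).re) = Set.univ := by
          ext a
          simp only [Function.mem_support, Set.mem_univ, iff_true]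
          exact (Complex.lt_def.1 (hq a)).1.ne'
        rw [h4, measure_univ]
        exact one_pos
      have h5 : ∫ a, (((star y ⬝ᵥ (pbt T a g x *ᵥ y)).re : ℝ) : ℂ) ∂μ =
          ((∫ a, (star y ⬝ᵥ (pbt T a g x *ᵥ y)).re ∂μ : ℝ) : ℂ) := integral_ofReal
      rw [h1, integral_congr_ae (Filter.Eventually.of_forall h2), h5]
      exact Complex.zero_lt_real.2 h3
  · intro x hx i j k
    have e1 := par_dz hU hK hKμ (pbt_joint (T := T) hg i j) hx k
    have e2 := par_dz hU hK hKμ (pbt_joint (T := T) hg k j) hx i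
    refine e1.trans (Eq.trans ?_ e2.symm)
    exact integral_congr_ae (Filter.Eventually.of_forall fun v => (pbt_isKahler (T := T) hg v).closed x hx i j k)
  · intro F hF
    exact absurd hF (Set.notMem_empty F)

theorem kavg_tr (hμ : IsMean T.Λ μ) (hg : IsKahler (tot κ halfPlane) T.total g) (w : κ → ℂ) {x : Unit ⊕ κ → ℂ}
    (hx : x ∈ tot κ halfPlane) : pbt T w (kavg T μ g) x = kavg T μ g x := by
  have hx' : T.tr w x ∈ tot κ halfPlane := tr_mem T w hx
  have hi : ∀ k l, Integrable (fun v : κ → ℂ => pbt T v g (T.tr w x) k l) μ := fun k l =>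
    hμ.integrable (pbt_cont hg hx' k l)
  ext i j
  have h1 := kavg_entry (trJ T (bas x) w) (fun v => pbt T v g (T.tr w x)) hi i j
  refine h1.trans ?_
  have h2 : ∀ v : κ → ℂ, ((trJ T (bas x) w)ᵀ * pbt T v g (T.tr w x) * mconj (trJ T (bas x) w)) i j =
      pbt T (v + w) g x i j := by
    intro v
    have h3 := pbt_pbt (T := T) (g := g) w v hx
    rw [add_comm] at h3
    rw [← h3]
    rfl
  rw [integral_congr_ae (Filter.Eventually.of_forall h2)]
  exact mean_shift hμ (pbt_cont hg hx i j) (fun v hv a => by rw [pbt_period hg a hv hx]) w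

theorem kavg_isKahler (hμ : IsMean T.Λ μ) (hg : IsKahler (tot κ halfPlane) T.total g) :
    IsKahler (tot κ halfPlane) T.total (kavg T μ g) := by
  have h0 := kavg_isKahler0 hμ hg
  refine ⟨h0.smooth, h0.pos, h0.closed, ?_⟩
  intro F hF x hx
  rcases hF with ⟨γ, rfl⟩ | ⟨v, hv, rfl⟩
  · have hFx : T.F γ x ∈ tot κ halfPlane := F_mem T γ hx
    obtain ⟨J, hJ⟩ : ∃ J, J = jac (T.F γ) x := ⟨_, rfl⟩
    rw [← hJ]
    have hi : ∀ k l, Integrable (fun v : κ → ℂ => pbt T v g (T.F γ x) k l) μ := fun k l =>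
      hμ.integrable (pbt_cont hg hFx k l)
    ext i j
    refine (kavg_entry J (fun v => pbt T v g (T.F γ x)) hi i j).trans ?_
    have hu : Continuous (fun v : κ → ℂ => (Jᵀ * pbt T v g (T.F γ x) * mconj J) i j) := by
      have e : (fun v : κ → ℂ => (Jᵀ * pbt T v g (T.F γ x) * mconj J) i j) =
          fun v => ∑ k, ∑ l, J k i * pbt T v g (T.F γ x) k l * conj (J l j) := by
        funext v
        rw [conj_entry]
      rw [e]
      exact continuous_finsetSum _ fun k _ => continuous_finsetSum _ fun l _ =>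
        (continuous_const.mul (pbt_cont hg hFx k l)).mul continuous_const
    have h1 := mean_rho (T := T) γ hμ hu (fun v hv a => by rw [pbt_period hg a hv hFx])
    rw [← h1]
    refine integral_congr_ae (Filter.Eventually.of_forall fun v => ?_)
    have h2 := pbt_F hg γ v hx
    rw [← hJ] at h2
    exact congrFun (congrFun h2 i) j
  · rw [jac_tr T v hx]
    exact kavg_tr hμ hg v hx

end TFam
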