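import Pool.Agent.Lib.MP_464db4_gt.YT.Defs

/-!
# Holomorphic families of complex tori over compact hyperbolic curves

A family over `Γ\ℍ` is described on the universal covering: the fibre over `t ∈ ℍ` is `ℂ^κ` modulo the lattice of the vectors
`per t v = Z₁(t) re v + Z₂(t) im v`, `v ∈ Λ ⊂ ℂ^κ = ℝ^(2m)`, with holomorphic matrices `Z₁`, `Z₂`; the elements of `Γ` act by
`(t,z) ↦ (γ t, A_γ(t) z + σ_γ(t))`.
-/

namespace TFam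

open Complex Matrix MeasureTheory YT
open scoped ContDiff ComplexConjugate ComplexOrder

variable {κ : Type} [Fintype κ] [DecidableEq κ]

/-- The real-linear map `v ↦ Z₁ re v + Z₂ im v`. -/
noncomputable def perOf (Z₁ Z₂ : Matrix κ κ ℂ) (v : κ → ℂ) : κ → ℂ :=
  Z₁ *ᵥ (fun k => (((v k).re : ℝ) : ℂ)) + Z₂ *ᵥ (fun k => (((v k).im : ℝ) : ℂ))

/-- Data of a holomorphic family of complex tori over `Γ\ℍ`: periods `Z₁`, `Z₂`, a full lattice `Λ`, for `γ ∈ Γ` a real-linear map `ρ γ` which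
preserves `Λ`, and holomorphic functions `A γ`, `σ γ` with `A_γ(t) per t v = per (γ t) (ρ_γ v)`, such that the maps
`F_γ(t,z) = (γ t, A_γ(t) z + σ_γ(t))` satisfy `F_γ F_δ = F_(γδ)` up to a translation by an element of `Λ`. -/
structure TorusFamily (κ : Type) [Fintype κ] [DecidableEq κ] (Γ : Subgroup (Matrix.SpecialLinearGroup (Fin 2) ℝ)) where
  Z₁ : (Unit → ℂ) → Matrix κ κ ℂ
  Z₂ : (Unit → ℂ) → Matrix κ κ ℂ
  Λ : Submodule ℤ (κ → ℂ)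
  ρ : Γ → (κ → ℂ) →ₗ[ℝ] (κ → ℂ)
  A : Γ → (Unit → ℂ) → Matrix κ κ ℂ
  σ : Γ → (Unit → ℂ) → (κ → ℂ)
  Z₁_hol : ∀ k l, DifferentiableOn ℂ (fun b => Z₁ b k l) halfPlane
  Z₂_hol : ∀ k l, DifferentiableOn ℂ (fun b => Z₂ b k l) halfPlane
  bij : ∀ b ∈ halfPlane, Function.Bijective (perOf (Z₁ b) (Z₂ b))
  disc : DiscreteTopology Λ
  span : Submodule.span ℝ (Λ : Set (κ → ℂ)) = ⊤
  pres : ∀ γ, ρ γ '' (Λ : Set (κ → ℂ)) = Λ
  A_hol : ∀ γ k l, DifferentiableOn ℂ (fun b => A γ b k l) halfPlane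
  σ_hol : ∀ γ k, DifferentiableOn ℂ (fun b => σ γ b k) halfPlane
  A_per : ∀ (γ : Γ), ∀ b ∈ halfPlane, ∀ v, A γ b *ᵥ perOf (Z₁ b) (Z₂ b) v =
    perOf (Z₁ (mob γ b)) (Z₂ (mob γ b)) (ρ γ v)
  comp : ∀ γ δ : Γ, ∃ v ∈ Λ, ∀ b ∈ halfPlane, ∀ z : κ → ℂ,
    A γ (mob δ b) *ᵥ (A δ b *ᵥ z + σ δ b) + σ γ (mob δ b) =
      A (γ * δ) b *ᵥ z + σ (γ * δ) b +
        perOf (Z₁ (mob ((γ * δ : Γ) : Matrix.SpecialLinearGroup (Fin 2) ℝ) b)) (Z₂ (mob ((γ * δ : Γ) : Matrix.SpecialLinearGroup (Fin 2) ℝ) b)) v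

variable {Γ : Subgroup (Matrix.SpecialLinearGroup (Fin 2) ℝ)}

/-- The vector `per t v = Z₁(t) re v + Z₂(t) im v`. -/
noncomputable def TorusFamily.per (T : TorusFamily κ Γ) (b : Unit → ℂ) (v : κ → ℂ) : κ → ℂ := perOf (T.Z₁ b) (T.Z₂ b) v

/-- The translation `(t,z) ↦ (t, z + per t v)`. -/
noncomputable def TorusFamily.tr (T : TorusFamily κ Γ) (v : κ → ℂ) (x : Unit ⊕ κ → ℂ) : Unit ⊕ κ → ℂ := x + pt 0 (T.per (bas x) v)

/-- The map `(t,z) ↦ (γ t, A_γ(t) z + σ_γ(t))`. -/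
noncomputable def TorusFamily.F (T : TorusFamily κ Γ) (γ : Γ) (x : Unit ⊕ κ → ℂ) : Unit ⊕ κ → ℂ :=
  pt (mob γ (bas x)) (T.A γ (bas x) *ᵥ fib x + T.σ γ (bas x))

/-- The translations of the lattice. -/
def TorusFamily.trans (T : TorusFamily κ Γ) : Set ((Unit ⊕ κ → ℂ) → (Unit ⊕ κ → ℂ)) := {F | ∃ v ∈ T.Λ, F = T.tr v}

/-- The maps defining the total space. -/
def TorusFamily.total (T : TorusFamily κ Γ) : Set ((Unit ⊕ κ → ℂ) → (Unit ⊕ κ → ℂ)) := Set.range T.F ∪ T.trans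

end TFam
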