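import Pool.Agent.Lib.MP_464db4_gt.TF.PrimE

/-!
# TF-Flat: every Kaehler class contains a form which is invariant under all real translations of the fibres
-/

namespace TFam

open Complex Matrix MeasureTheory YT
open scoped ContDiff ComplexConjugate ComplexOrder

variable {κ : Type} [Fintype κ] [DecidableEq κ] {Γ : Subgroup (Matrix.SpecialLinearGroup (Fin 2) ℝ)}

theorem exists_flat (hΓ : CocompactFuchsian Γ) (T : TorusFamily κ Γ) {g : (Unit ⊕ κ → ℂ) → Matrix (Unit ⊕ κ) (Unit ⊕ κ) ℂ}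
    (hg : IsKahler (tot κ halfPlane) T.total g) :
    ∃ gm, IsKahler (tot κ halfPlane) T.total gm ∧ Cohomologous (tot κ halfPlane) T.total g gm ∧
      ∀ w, ∀ x ∈ tot κ halfPlane, pbt T w gm x = gm x := by
  obtain ⟨μ, hμ, he⟩ := coh_kavg hΓ hg
  exact ⟨kavg T μ g, kavg_isKahler hμ hg, he, fun w x hx => kavg_tr hμ hg w hx⟩

end TFam
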