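import Pool.Agent.Lib.MP_464db4_gt.TF.Defs
import Pool.Agent.Lib.MP_464db4_gt.YT.Geo
import Pool.Agent.Lib.MP_464db4_gt.YT.Mob
import Pool.Agent.Lib.MP_464db4_gt.YT.WirtB

/-!
# TF-Geo: the fibre translations
Port of KG/Geo.lean (same structure, finished proofs there); `per` now depends on the point `b` of the half plane by the holomorphic matrices `Z₁`, `Z₂`.
`dper b v k` is the derivative of `per · v k`; the Jacobian of `tr v` at `x` is `trJ (bas x) v = fromBlocks 1 0 (dper) 1`.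
`dper` is additive and real-homogeneous in `v` (`dz_add`, `dz_const_mul`, differentiability from `per_hol`), it is jointly smooth: `dper b v k = ∑ l, dz () (Z₁ · k l) b * re (v l) + dz () (Z₂ · k l) b * im (v l)`,
`dz_contDiffOn`, `hol_contDiffOn`.  `dzbar_dper`: `dz_dzbar_comm` and `dzbar_hol` (on the half plane), then `dzbar_bas_inl`, `dzbar_bas_inr`.
-/

namespace TFam

open Complex Matrix MeasureTheory YT
open scoped ContDiff ComplexConjugate ComplexOrder

variable {κ : Type} [Fintype κ] [DecidableEq κ] {Γ : Subgroup (Matrix.SpecialLinearGroup (Fin 2) ℝ)} (T : TorusFamily κ Γ)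

private theorem per_apply0 (b : Unit → ℂ) (v : κ → ℂ) (k : κ) :
    T.per b v k = ∑ l, T.Z₁ b k l * (((v l).re : ℝ) : ℂ) + ∑ l, T.Z₂ b k l * (((v l).im : ℝ) : ℂ) := rfl

theorem per_add (b : Unit → ℂ) (v w : κ → ℂ) : T.per b (v + w) = T.per b v + T.per b w := by
  funext k
  simp only [per_apply0, Pi.add_apply, Complex.add_re, Complex.add_im, Complex.ofReal_add, mul_add, Finset.sum_add_distrib]
  ring

theorem per_smul (b : Unit → ℂ) (s : ℝ) (v : κ → ℂ) : T.per b (s • v) = (s : ℂ) • T.per b v := by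
  funext k
  simp only [per_apply0, Pi.smul_apply, Complex.smul_re, Complex.smul_im, smul_eq_mul, Complex.ofReal_mul, mul_add, Finset.mul_sum]
  congr 1
  · exact Finset.sum_congr rfl fun l _ => by ring
  · exact Finset.sum_congr rfl fun l _ => by ring

theorem per_apply (b : Unit → ℂ) (v : κ → ℂ) (k : κ) :
    T.per b v k = ∑ l, T.Z₁ b k l * (((v l).re : ℝ) : ℂ) + ∑ l, T.Z₂ b k l * (((v l).im : ℝ) : ℂ) := by
  rfl

theorem per_hol (v : κ → ℂ) (k : κ) : DifferentiableOn ℂ (fun b => T.per b v k) halfPlane := by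
  have e : (fun b => T.per b v k) = fun b => ∑ l, T.Z₁ b k l * (((v l).re : ℝ) : ℂ) + ∑ l, T.Z₂ b k l * (((v l).im : ℝ) : ℂ) := by
    funext b
    exact per_apply T b v k
  rw [e]
  exact (DifferentiableOn.fun_sum fun l _ => (T.Z₁_hol k l).mul_const _).add
    (DifferentiableOn.fun_sum fun l _ => (T.Z₂_hol k l).mul_const _)

/-- A holomorphic function on the half plane is smooth. -/
private theorem geo_hsm {f : (Unit → ℂ) → ℂ} (hf : DifferentiableOn ℂ f halfPlane) : ContDiffOn ℝ ∞ f halfPlane := by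
  have h : ContDiffOn ℝ ∞ (fun b (_ : Unit) => f b) halfPlane :=
    hol_contDiffOn isOpen_halfPlane (differentiableOn_pi.2 fun _ => hf)
  exact contDiffOn_pi.1 h ()

private theorem geo_lift {f : (Unit → ℂ) → ℂ} (hf : ContDiffOn ℝ ∞ f halfPlane) :
    ContDiffOn ℝ ∞ (fun q : (Unit ⊕ κ → ℂ) × (κ → ℂ) => f (bas q.1)) (tot κ halfPlane ×ˢ Set.univ) :=
  (contDiffOn_bas (κ := κ) hf).comp contDiffOn_fst (fun _ hq => hq.1)

private theorem geo_re (l : κ) : ContDiff ℝ ∞ (fun q : (Unit ⊕ κ → ℂ) × (κ → ℂ) => (((q.2 l).re : ℝ) : ℂ)) :=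
  Complex.ofRealCLM.contDiff.comp (Complex.reCLM.contDiff.comp ((contDiff_apply ℝ ℂ l).comp contDiff_snd))

private theorem geo_im (l : κ) : ContDiff ℝ ∞ (fun q : (Unit ⊕ κ → ℂ) × (κ → ℂ) => (((q.2 l).im : ℝ) : ℂ)) :=
  Complex.ofRealCLM.contDiff.comp (Complex.imCLM.contDiff.comp ((contDiff_apply ℝ ℂ l).comp contDiff_snd))

theorem per_joint (k : κ) :
    ContDiffOn ℝ ∞ (fun q : (Unit ⊕ κ → ℂ) × (κ → ℂ) => T.per (bas q.1) q.2 k) (tot κ halfPlane ×ˢ Set.univ) := by
  have e : (fun q : (Unit ⊕ κ → ℂ) × (κ → ℂ) => T.per (bas q.1) q.2 k) = fun q =>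
      ∑ l, T.Z₁ (bas q.1) k l * (((q.2 l).re : ℝ) : ℂ) + ∑ l, T.Z₂ (bas q.1) k l * (((q.2 l).im : ℝ) : ℂ) := by
    funext q
    exact per_apply T _ _ k
  rw [e]
  exact (ContDiffOn.sum fun l _ => (geo_lift (geo_hsm (T.Z₁_hol k l))).mul (geo_re l).contDiffOn).add
    (ContDiffOn.sum fun l _ => (geo_lift (geo_hsm (T.Z₂_hol k l))).mul (geo_im l).contDiffOn)

theorem tr_inl (v : κ → ℂ) (x : Unit ⊕ κ → ℂ) : T.tr v x (Sum.inl ()) = x (Sum.inl ()) := by
  show x (Sum.inl ()) + 0 = x (Sum.inl ())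
  rw [add_zero]

theorem tr_inr (v : κ → ℂ) (x : Unit ⊕ κ → ℂ) (k : κ) : T.tr v x (Sum.inr k) = x (Sum.inr k) + T.per (bas x) v k := by
  rfl

theorem bas_tr (v : κ → ℂ) (x : Unit ⊕ κ → ℂ) : bas (T.tr v x) = bas x := by
  exact bas_add_pt x _

theorem tr_mem (v : κ → ℂ) {x : Unit ⊕ κ → ℂ} (hx : x ∈ tot κ halfPlane) : T.tr v x ∈ tot κ halfPlane := by
  exact add_mem_tot hx _

theorem tr_tr (v w : κ → ℂ) (x : Unit ⊕ κ → ℂ) : T.tr v (T.tr w x) = T.tr (v + w) x := by
  funext k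
  rcases k with k | k
  · cases k
    rw [tr_inl, tr_inl, tr_inl]
  · rw [tr_inr, tr_inr, tr_inr, bas_tr, per_add, Pi.add_apply]
    ring

theorem tr_zero (x : Unit ⊕ κ → ℂ) : T.tr 0 x = x := by
  funext k
  rcases k with k | k
  · cases k
    rw [tr_inl]
  · rw [tr_inr, per_apply]
    simp

private theorem geo_per_bas (v : κ → ℂ) (k : κ) :
    DifferentiableOn ℂ (fun x : Unit ⊕ κ → ℂ => T.per (bas x) v k) (tot κ halfPlane) := by
  have h := (per_hol T v k).comp (geo_basL Unit κ).differentiable.differentiableOn (s := tot κ halfPlane) (fun x hx => hx)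
  exact h

theorem tr_hol (v : κ → ℂ) : DifferentiableOn ℂ (T.tr v) (tot κ halfPlane) := by
  rw [differentiableOn_pi]
  rintro (k | k)
  · have e : (fun x : Unit ⊕ κ → ℂ => T.tr v x (Sum.inl k)) = fun x => x (Sum.inl ()) := by
      funext x
      exact tr_inl T v x
    rw [e]
    fun_prop
  · have e : (fun x : Unit ⊕ κ → ℂ => T.tr v x (Sum.inr k)) = fun x => x (Sum.inr k) + T.per (bas x) v k := by
      funext x
      rfl
    rw [e]
    exact DifferentiableOn.add (by fun_prop) (geo_per_bas T v k)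

theorem tr_joint : ContDiffOn ℝ ∞ (fun q : (Unit ⊕ κ → ℂ) × (κ → ℂ) => T.tr q.2 q.1) (tot κ halfPlane ×ˢ Set.univ) := by
  rw [contDiffOn_pi]
  have hc : ∀ j : Unit ⊕ κ, ContDiff ℝ ∞ (fun q : (Unit ⊕ κ → ℂ) × (κ → ℂ) => q.1 j) := fun j =>
    (contDiff_apply ℝ ℂ j).comp contDiff_fst
  rintro (k | k)
  · have e : (fun q : (Unit ⊕ κ → ℂ) × (κ → ℂ) => T.tr q.2 q.1 (Sum.inl k)) = fun q => q.1 (Sum.inl ()) := by
      funext q
      exact tr_inl T q.2 q.1
    rw [e]
    exact (hc _).contDiffOn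
  · exact (hc _).contDiffOn.add (per_joint T k)

/-- The derivative of the period vector. -/
noncomputable def dper (b : Unit → ℂ) (v : κ → ℂ) (k : κ) : ℂ := dz () (fun c => T.per c v k) b

private theorem geo_diffR {b : Unit → ℂ} (hb : b ∈ halfPlane) (v : κ → ℂ) (k : κ) : DifferentiableAt ℝ (fun c => T.per c v k) b :=
  ((per_hol T v k).differentiableAt (isOpen_halfPlane.mem_nhds hb)).restrictScalars ℝ

theorem dper_add {b : Unit → ℂ} (hb : b ∈ halfPlane) (v w : κ → ℂ) (k : κ) : dper T b (v + w) k = dper T b v k + dper T b w k := by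
  have e : (fun c => T.per c (v + w) k) = fun c => T.per c v k + T.per c w k := by
    funext c
    rw [per_add, Pi.add_apply]
  unfold dper
  rw [e, dz_add () (geo_diffR T hb v k) (geo_diffR T hb w k)]

theorem dper_smul {b : Unit → ℂ} (hb : b ∈ halfPlane) (s : ℝ) (v : κ → ℂ) (k : κ) : dper T b (s • v) k = (s : ℂ) * dper T b v k := by
  have e : (fun c => T.per c (s • v) k) = fun c => (s : ℂ) * T.per c v k := by
    funext c
    rw [per_smul, Pi.smul_apply, smul_eq_mul]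
  unfold dper
  rw [e, dz_const_mul () _ (geo_diffR T hb v k)]

private theorem geo_dper {b : Unit → ℂ} (hb : b ∈ halfPlane) (v : κ → ℂ) (k : κ) :
    dper T b v k = ∑ l, dz () (fun c => T.Z₁ c k l) b * (((v l).re : ℝ) : ℂ) +
      ∑ l, dz () (fun c => T.Z₂ c k l) b * (((v l).im : ℝ) : ℂ) := by
  have hn := isOpen_halfPlane.mem_nhds hb
  have h1 : ∀ l, DifferentiableAt ℝ (fun c => T.Z₁ c k l) b := fun l =>
    ((T.Z₁_hol k l).differentiableAt hn).restrictScalars ℝ
  have h2 : ∀ l, DifferentiableAt ℝ (fun c => T.Z₂ c k l) b := fun l =>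
    ((T.Z₂_hol k l).differentiableAt hn).restrictScalars ℝ
  have h1' : ∀ l, DifferentiableAt ℝ (fun c => T.Z₁ c k l * (((v l).re : ℝ) : ℂ)) b := fun l => (h1 l).mul_const _
  have h2' : ∀ l, DifferentiableAt ℝ (fun c => T.Z₂ c k l * (((v l).im : ℝ) : ℂ)) b := fun l => (h2 l).mul_const _
  have e : (fun c => T.per c v k) = fun c => ∑ l, T.Z₁ c k l * (((v l).re : ℝ) : ℂ) + ∑ l, T.Z₂ c k l * (((v l).im : ℝ) : ℂ) := by
    funext c
    exact per_apply T c v k
  unfold dper
  rw [e, dz_add () (DifferentiableAt.fun_sum fun l _ => h1' l) (DifferentiableAt.fun_sum fun l _ => h2' l),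
    dz_sum _ _ _ (fun l _ => h1' l), dz_sum _ _ _ (fun l _ => h2' l)]
  congr 1
  · exact Finset.sum_congr rfl fun l _ => dz_mul_const () _ (h1 l)
  · exact Finset.sum_congr rfl fun l _ => dz_mul_const () _ (h2 l)

theorem dper_joint (k : κ) :
    ContDiffOn ℝ ∞ (fun q : (Unit ⊕ κ → ℂ) × (κ → ℂ) => dper T (bas q.1) q.2 k) (tot κ halfPlane ×ˢ Set.univ) := by
  have h : ContDiffOn ℝ ∞ (fun q : (Unit ⊕ κ → ℂ) × (κ → ℂ) =>
      ∑ l, dz () (fun c => T.Z₁ c k l) (bas q.1) * (((q.2 l).re : ℝ) : ℂ) +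
        ∑ l, dz () (fun c => T.Z₂ c k l) (bas q.1) * (((q.2 l).im : ℝ) : ℂ)) (tot κ halfPlane ×ˢ Set.univ) :=
    (ContDiffOn.sum fun l _ => (geo_lift (dz_contDiffOn isOpen_halfPlane (geo_hsm (T.Z₁_hol k l)) ())).mul
      (geo_re l).contDiffOn).add (ContDiffOn.sum fun l _ =>
        (geo_lift (dz_contDiffOn isOpen_halfPlane (geo_hsm (T.Z₂_hol k l)) ())).mul (geo_im l).contDiffOn)
  exact h.congr fun q hq => geo_dper T hq.1 q.2 k

theorem dzbar_dper (v : κ → ℂ) (k : κ) {x : Unit ⊕ κ → ℂ} (hx : x ∈ tot κ halfPlane) (i : Unit ⊕ κ) :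
    dzbar i (fun y => dper T (bas y) v k) x = 0 := by
  have hp : ContDiffOn ℝ ∞ (fun b => T.per b v k) halfPlane := geo_hsm (per_hol T v k)
  have hd : ContDiffOn ℝ ∞ (fun b => dper T b v k) halfPlane := dz_contDiffOn isOpen_halfPlane hp ()
  have hx' : bas x ∈ halfPlane := hx
  have hda : DifferentiableAt ℝ (fun b => dper T b v k) (bas x) :=
    (hd.contDiffAt (isOpen_halfPlane.mem_nhds hx')).differentiableAt (by simp)
  rcases i with i | i
  · cases i
    refine (dzbar_bas_inl hda ()).trans ?_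
    have h1 := dz_dzbar_comm isOpen_halfPlane hp hx' () ()
    refine h1.symm.trans ?_
    rw [dz_congr_on (h := fun _ => 0) isOpen_halfPlane (fun b hb => dzbar_hol ()
      ((per_hol T v k).differentiableAt (isOpen_halfPlane.mem_nhds hb))) hx' ()]
    exact dz_const () 0
  · exact dzbar_bas_inr hda i

theorem per_bas_hol (v : κ → ℂ) (k : κ) : DifferentiableOn ℂ (fun x : Unit ⊕ κ → ℂ => T.per (bas x) v k) (tot κ halfPlane) := by
  exact geo_per_bas T v k

/-- The Jacobian of `tr v`. -/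
noncomputable def trJ (b : Unit → ℂ) (v : κ → ℂ) : Matrix (Unit ⊕ κ) (Unit ⊕ κ) ℂ :=
  fromBlocks 1 0 (Matrix.of fun k _ => dper T b v k) 1

/-- `trJ b v - 1` -/
noncomputable def trN (b : Unit → ℂ) (v : κ → ℂ) : Matrix (Unit ⊕ κ) (Unit ⊕ κ) ℂ :=
  fromBlocks 0 0 (Matrix.of fun k _ => dper T b v k) 0

theorem jac_tr (v : κ → ℂ) {x : Unit ⊕ κ → ℂ} (hx : x ∈ tot κ halfPlane) : jac (T.tr v) x = trJ T (bas x) v := by
  have hx' : bas x ∈ halfPlane := hx
  ext k i
  show dz i (fun y => T.tr v y k) x = trJ T (bas x) v k i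
  unfold trJ
  rcases k with k | k
  · cases k
    have e : (fun y : Unit ⊕ κ → ℂ => T.tr v y (Sum.inl ())) = fun y => y (Sum.inl ()) := by
      funext y
      exact tr_inl T v y
    rw [e, geo_dz_coord]
    rcases i with i | i
    · cases i
      simp
    · simp
  · have e : (fun y : Unit ⊕ κ → ℂ => T.tr v y (Sum.inr k)) = fun y => y (Sum.inr k) + T.per (bas y) v k := by
      funext y
      rfl
    have h1 : DifferentiableAt ℝ (fun y : Unit ⊕ κ → ℂ => y (Sum.inr k)) x := by fun_prop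
    have h2 : DifferentiableAt ℝ (fun y : Unit ⊕ κ → ℂ => T.per (bas y) v k) x :=
      ((geo_per_bas T v k).differentiableAt ((isOpen_tot isOpen_halfPlane).mem_nhds hx)).restrictScalars ℝ
    rw [e, dz_add i h1 h2, geo_dz_coord]
    rcases i with i | i
    · cases i
      have h3 := dz_bas_inl (κ := κ) (geo_diffR T hx' v k) ()
      refine (congrArg (fun z => (if (Sum.inr k : Unit ⊕ κ) = Sum.inl () then (1 : ℂ) else 0) + z) h3).trans ?_
      simp [dper]
    · have h3 := dz_bas_inr (κ := κ) (geo_diffR T hx' v k) i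
      refine (congrArg (fun z => (if (Sum.inr k : Unit ⊕ κ) = Sum.inr i then (1 : ℂ) else 0) + z) h3).trans ?_
      by_cases h : k = i
      · subst h
        simp
      · simp [h]

theorem trJ_mul {b : Unit → ℂ} (hb : b ∈ halfPlane) (v w : κ → ℂ) : trJ T b v * trJ T b w = trJ T b (v + w) := by
  unfold trJ
  rw [fromBlocks_multiply]
  congr 1
  · simp
  · simp
  · ext k i
    simp [dper_add T hb]
  · simp

theorem trJ_zero (b : Unit → ℂ) : trJ T b 0 = 1 := by
  have h : ∀ k, dper T b 0 k = 0 := by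
    intro k
    have e : (fun c => T.per c (0 : κ → ℂ) k) = fun _ => 0 := by
      funext c
      rw [per_apply]
      simp
    unfold dper
    rw [e]
    exact dz_const () 0
  unfold trJ
  rw [← fromBlocks_one]
  congr 1
  ext k i
  simp [h]

theorem trJ_inr (b : Unit → ℂ) (v : κ → ℂ) (k : Unit ⊕ κ) (l : κ) : trJ T b v k (Sum.inr l) = if k = Sum.inr l then 1 else 0 := by
  unfold trJ
  rcases k with k | k
  · simp
  · by_cases h : k = l
    · subst h
      simp
    · simp [h]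

theorem trJ_smul {b : Unit → ℂ} (hb : b ∈ halfPlane) (s : ℝ) (w : κ → ℂ) : trJ T b (s • w) = 1 + (s : ℂ) • trN T b w := by
  unfold trJ trN
  rw [← fromBlocks_one, fromBlocks_smul, fromBlocks_add]
  congr 1
  · simp
  · simp
  · ext k i
    simp [dper_smul T hb]
  · simp

theorem trN_sq (b : Unit → ℂ) (w : κ → ℂ) : trN T b w * trN T b w = 0 := by
  unfold trN
  rw [fromBlocks_multiply]
  simp

theorem dz_per (w : κ → ℂ) {x : Unit ⊕ κ → ℂ} (hx : x ∈ tot κ halfPlane) (i : Unit ⊕ κ) (l : κ) :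
    dz i (fun y => T.per (bas y) w l) x = trN T (bas x) w (Sum.inr l) i := by
  have hx' : bas x ∈ halfPlane := hx
  unfold trN
  rcases i with i | i
  · cases i
    exact dz_bas_inl (κ := κ) (geo_diffR T hx' w l) ()
  · exact dz_bas_inr (κ := κ) (geo_diffR T hx' w l) i

theorem dzbar_per (w : κ → ℂ) {x : Unit ⊕ κ → ℂ} (hx : x ∈ tot κ halfPlane) (i : Unit ⊕ κ) (l : κ) :
    dzbar i (fun y => T.per (bas y) w l) x = 0 := by
  exact dzbar_hol i ((geo_per_bas T w l).differentiableAt ((isOpen_tot isOpen_halfPlane).mem_nhds hx))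

end TFam
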