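import Pool.Agent.Lib.MP_464db4_gt.TF.Pb
import Pool.Agent.Lib.MP_464db4_gt.YT.ExB

/-!
# TF-HomA: contraction with the vector field of the translations, Cartan's formula
Port of KG/HomA.lean.  `X = pt 0 (per t w)` is holomorphic: `dz i X_l = trN (inr l) i`, `dzbar i X_l = 0` (`dz_per`, `dzbar_per`); `trN` is now complex and depends on `bas x`.
`ct w g x i = -I * ∑ l, g x i (inr l) * conj (X l)`.
* `ct_sym`: `dz i (conj X_l) = conj (dzbar i X_l) = 0`, so `dz i (ct j) = -I ∑ l, dz i (g · j (inr l)) x * conj X_l`, symmetric by closedness.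
* `ct_lie`: with `conj (g j l) = g l j`, `-I * (dz i (conj ct_j) - dzbar j ct_i) = ∑ l, dz i (g_(l j) X_l) + ∑ l, dzbar j (g_(i l) conj X_l)`
  `= ∑ l (dz i g_lj) X_l + g_lj dz i X_l + (dzbar j g_il) conj X_l + g_il conj (dz j X_l)`, `dz i g_lj = dz l g_ij` (closed), `dzbar j g_il = dzbar l g_ij` (`closed_bar`, YT-ExB);
  the first and third terms give `fderiv ℝ (g · i j) x (pt 0 X)` (`fderiv_eq_sum`), the others `(trNᵀ g + g mconj trN) i j`.
* `pbt_deriv`: `pbt (s•w) g x = Jᵀ g (tr (s•w) x) J̄`, `J = 1 + s N` (`trJ_smul`), `N = trN`, `N * N = 0` (`trN_sq`), `d/ds tr (s•w) x = pt 0 X` (constant in `s`, `per_smul`), so the derivative is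
  `Nᵀ M J̄ + Jᵀ M N̄ + Jᵀ (fderiv g (tr (s•w) x) (pt 0 X)) J̄`, `M = g (tr (s•w) x)`; `Nᵀ = Nᵀ Jᵀ` as `J N = N`; and `fderiv (pbt (s•w) g · i j) x (pt 0 X)` is the `(i,j)` entry of
  `Jᵀ (fderiv g (tr (s•w) x) (pt 0 X)) J̄`, because along `pt 0 X` the base point does not change: restrict to the line `τ ↦ x + τ • pt 0 X`, `tr (s•w) (x + τ • pt 0 X) = tr (s•w) x + τ • pt 0 X`, `bas` is constant.
-/

namespace TFam

open Complex Matrix MeasureTheory YT
open scoped ContDiff ComplexConjugate ComplexOrder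

variable {κ : Type} [Fintype κ] [DecidableEq κ] {Γ : Subgroup (Matrix.SpecialLinearGroup (Fin 2) ℝ)} {T : TorusFamily κ Γ}
  {S : Set ((Unit ⊕ κ → ℂ) → (Unit ⊕ κ → ℂ))} {g : (Unit ⊕ κ → ℂ) → Matrix (Unit ⊕ κ) (Unit ⊕ κ) ℂ}

/-- The contraction of `g` with the vector field of the translations `tr (s • w)`. -/
noncomputable def ct (T : TorusFamily κ Γ) (w : κ → ℂ) (g : (Unit ⊕ κ → ℂ) → Matrix (Unit ⊕ κ) (Unit ⊕ κ) ℂ) (x : Unit ⊕ κ → ℂ)
    (i : Unit ⊕ κ) : ℂ :=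
  -I * ∑ l, g x i (Sum.inr l) * conj (T.per (bas x) w l)

/-- The Lie derivative of `g`. -/
noncomputable def lie (T : TorusFamily κ Γ) (w : κ → ℂ) (g : (Unit ⊕ κ → ℂ) → Matrix (Unit ⊕ κ) (Unit ⊕ κ) ℂ) (x : Unit ⊕ κ → ℂ)
    (i j : Unit ⊕ κ) : ℂ :=
  fderiv ℝ (fun y => g y i j) x (pt 0 (T.per (bas x) w)) + ((trN T (bas x) w)ᵀ * g x + g x * mconj (trN T (bas x) w)) i j

private theorem ha_open : IsOpen (tot κ halfPlane) := isOpen_tot isOpen_halfPlane

private theorem ha_diff (hg : IsKahler (tot κ halfPlane) S g) {x : Unit ⊕ κ → ℂ} (hx : x ∈ tot κ halfPlane) (i j : Unit ⊕ κ) :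
    DifferentiableAt ℝ (fun y => g y i j) x :=
  ((hg.smooth i j).contDiffAt (ha_open.mem_nhds hx)).differentiableAt (by simp)

private theorem ha_per (w : κ → ℂ) {x : Unit ⊕ κ → ℂ} (hx : x ∈ tot κ halfPlane) (l : κ) :
    DifferentiableAt ℝ (fun y : Unit ⊕ κ → ℂ => T.per (bas y) w l) x :=
  ((per_bas_hol T w l).differentiableAt (ha_open.mem_nhds hx)).restrictScalars ℝ

private theorem ha_cper (w : κ → ℂ) {x : Unit ⊕ κ → ℂ} (hx : x ∈ tot κ halfPlane) (l : κ) :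
    DifferentiableAt ℝ (fun y : Unit ⊕ κ → ℂ => conj (T.per (bas y) w l)) x :=
  Complex.conjCLE.differentiableAt.comp x (ha_per w hx l)

private theorem ha_per_smooth (w : κ → ℂ) (l : κ) :
    ContDiffOn ℝ ∞ (fun x : Unit ⊕ κ → ℂ => T.per (bas x) w l) (tot κ halfPlane) := by
  have h1 : ContDiffOn ℝ ∞ (fun x : Unit ⊕ κ → ℂ => (x, w)) (tot κ halfPlane) :=
    (contDiff_id.prodMk contDiff_const).contDiffOn
  exact (per_joint T l).comp h1 (fun x hx => ⟨hx, Set.mem_univ _⟩)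

theorem ct_joint (hg : IsKahler (tot κ halfPlane) S g) (i : Unit ⊕ κ) :
    ContDiffOn ℝ ∞ (fun q : (Unit ⊕ κ → ℂ) × (ℝ × (κ → ℂ)) => ct T q.2.2 (pbt T (q.2.1 • q.2.2) g) q.1 i) (tot κ halfPlane ×ˢ Set.univ) := by
  have h1 : ContDiff ℝ ∞ (fun q : (Unit ⊕ κ → ℂ) × (ℝ × (κ → ℂ)) => (q.1, q.2.1 • q.2.2)) :=
    contDiff_fst.prodMk ((contDiff_fst.comp contDiff_snd).smul (contDiff_snd.comp contDiff_snd))
  have h3 : ContDiff ℝ ∞ (fun q : (Unit ⊕ κ → ℂ) × (ℝ × (κ → ℂ)) => (q.1, q.2.2)) :=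
    contDiff_fst.prodMk (contDiff_snd.comp contDiff_snd)
  have h2 : ∀ l : κ, ContDiffOn ℝ ∞ (fun q : (Unit ⊕ κ → ℂ) × (ℝ × (κ → ℂ)) => pbt T (q.2.1 • q.2.2) g q.1 i (Sum.inr l))
      (tot κ halfPlane ×ˢ Set.univ) := by
    intro l
    have h := pbt_joint (T := T) hg i (Sum.inr l)
    have hm : Set.MapsTo (fun q : (Unit ⊕ κ → ℂ) × (ℝ × (κ → ℂ)) => (q.1, q.2.1 • q.2.2)) (tot κ halfPlane ×ˢ Set.univ)
        (tot κ halfPlane ×ˢ Set.univ) := fun q hq => ⟨hq.1, Set.mem_univ _⟩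
    exact ContDiffOn.comp (g := fun q : (Unit ⊕ κ → ℂ) × (κ → ℂ) => pbt T q.2 g q.1 i (Sum.inr l))
      (f := fun q : (Unit ⊕ κ → ℂ) × (ℝ × (κ → ℂ)) => (q.1, q.2.1 • q.2.2)) h h1.contDiffOn hm
  have h4 : ∀ l : κ, ContDiffOn ℝ ∞ (fun q : (Unit ⊕ κ → ℂ) × (ℝ × (κ → ℂ)) => T.per (bas q.1) q.2.2 l)
      (tot κ halfPlane ×ˢ Set.univ) := by
    intro l
    have h := per_joint T l
    have hm : Set.MapsTo (fun q : (Unit ⊕ κ → ℂ) × (ℝ × (κ → ℂ)) => (q.1, q.2.2)) (tot κ halfPlane ×ˢ Set.univ)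
        (tot κ halfPlane ×ˢ Set.univ) := fun q hq => ⟨hq.1, Set.mem_univ _⟩
    exact ContDiffOn.comp (g := fun q : (Unit ⊕ κ → ℂ) × (κ → ℂ) => T.per (bas q.1) q.2 l)
      (f := fun q : (Unit ⊕ κ → ℂ) × (ℝ × (κ → ℂ)) => (q.1, q.2.2)) h h3.contDiffOn hm
  have h5 : ∀ l : κ, ContDiffOn ℝ ∞ (fun q : (Unit ⊕ κ → ℂ) × (ℝ × (κ → ℂ)) => conj (T.per (bas q.1) q.2.2 l))
      (tot κ halfPlane ×ˢ Set.univ) := fun l => Complex.conjCLE.contDiff.comp_contDiffOn (h4 l)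
  have h6 : ContDiffOn ℝ ∞ (fun q : (Unit ⊕ κ → ℂ) × (ℝ × (κ → ℂ)) => ∑ l : κ, pbt T (q.2.1 • q.2.2) g q.1 i (Sum.inr l) *
      conj (T.per (bas q.1) q.2.2 l)) (tot κ halfPlane ×ˢ Set.univ) :=
    ContDiffOn.sum fun l _ => (h2 l).mul (h5 l)
  exact (contDiffOn_const (c := -I)).mul h6

theorem ct_smooth (hg : IsKahler (tot κ halfPlane) S g) (w : κ → ℂ) (i : Unit ⊕ κ) :
    ContDiffOn ℝ ∞ (fun x => ct T w g x i) (tot κ halfPlane) := by
  unfold ct
  refine contDiffOn_const.mul (ContDiffOn.sum fun l _ => ?_)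
  exact (hg.smooth i (Sum.inr l)).mul (Complex.conjCLE.contDiff.comp_contDiffOn (ha_per_smooth w l))

private theorem ha_dz_ct (hg : IsKahler (tot κ halfPlane) S g) (w : κ → ℂ) {x : Unit ⊕ κ → ℂ} (hx : x ∈ tot κ halfPlane)
    (i j : Unit ⊕ κ) : dz i (fun y => ct T w g y j) x =
      -I * ∑ l, dz i (fun y => g y j (Sum.inr l)) x * conj (T.per (bas x) w l) := by
  have hd : ∀ l, DifferentiableAt ℝ (fun y : Unit ⊕ κ → ℂ => g y j (Sum.inr l) * conj (T.per (bas y) w l)) x := fun l =>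
    (ha_diff hg hx j (Sum.inr l)).fun_mul (ha_cper w hx l)
  unfold ct
  rw [dz_const_mul i _ (DifferentiableAt.fun_sum fun l _ => hd l), dz_sum Finset.univ _ i (fun l _ => hd l)]
  congr 1
  refine Finset.sum_congr rfl fun l _ => ?_
  rw [dz_mul i (ha_diff hg hx j (Sum.inr l)) (ha_cper w hx l), dz_conj, dzbar_per T w hx i l, map_zero, mul_zero, add_zero]

private theorem ha_dzbar_ct (hg : IsKahler (tot κ halfPlane) S g) (w : κ → ℂ) {x : Unit ⊕ κ → ℂ} (hx : x ∈ tot κ halfPlane)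
    (i j : Unit ⊕ κ) : dzbar j (fun y => ct T w g y i) x =
      -I * ∑ l, (dzbar j (fun y => g y i (Sum.inr l)) x * conj (T.per (bas x) w l) +
        g x i (Sum.inr l) * conj (trN T (bas x) w (Sum.inr l) j)) := by
  have hd : ∀ l, DifferentiableAt ℝ (fun y : Unit ⊕ κ → ℂ => g y i (Sum.inr l) * conj (T.per (bas y) w l)) x := fun l =>
    (ha_diff hg hx i (Sum.inr l)).fun_mul (ha_cper w hx l)
  unfold ct
  rw [dzbar_const_mul j _ (DifferentiableAt.fun_sum fun l _ => hd l), dzbar_sum Finset.univ _ j (fun l _ => hd l)]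
  congr 1
  refine Finset.sum_congr rfl fun l _ => ?_
  rw [dzbar_mul j (ha_diff hg hx i (Sum.inr l)) (ha_cper w hx l), dzbar_conj, dz_per T w hx j l]

theorem ct_sym (hg : IsKahler (tot κ halfPlane) S g) (w : κ → ℂ) {x : Unit ⊕ κ → ℂ} (hx : x ∈ tot κ halfPlane) (i j : Unit ⊕ κ) :
    dz i (fun y => ct T w g y j) x = dz j (fun y => ct T w g y i) x := by
  rw [ha_dz_ct hg w hx, ha_dz_ct hg w hx]
  congr 1
  refine Finset.sum_congr rfl fun l _ => ?_
  rw [hg.closed x hx j (Sum.inr l) i]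

private theorem ha_trN_inl (b : Unit → ℂ) (w : κ → ℂ) (j : Unit ⊕ κ) : trN T b w (Sum.inl ()) j = 0 := by
  unfold trN
  rcases j with j | j <;> simp

private theorem ha_fderiv {f : (Unit ⊕ κ → ℂ) → ℂ} {x : Unit ⊕ κ → ℂ} (a : κ → ℂ) :
    fderiv ℝ f x (pt 0 a) = ∑ l : κ, (a l * dz (Sum.inr l) f x + conj (a l) * dzbar (Sum.inr l) f x) := by
  rw [fderiv_eq_sum, Fintype.sum_sum_type]
  have z1 : ∀ b : Unit, (pt 0 a : Unit ⊕ κ → ℂ) (Sum.inl b) = 0 := fun b => rfl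
  have z2 : ∀ b : κ, (pt 0 a : Unit ⊕ κ → ℂ) (Sum.inr b) = a b := fun b => rfl
  simp only [z1, z2, map_zero, zero_mul, add_zero, Finset.sum_const_zero, zero_add]

private theorem ha_mat (N M : Matrix (Unit ⊕ κ) (Unit ⊕ κ) ℂ) (hN : ∀ j, N (Sum.inl ()) j = 0) (i j : Unit ⊕ κ) :
    (Nᵀ * M + M * mconj N) i j = ∑ l : κ, (N (Sum.inr l) i * M (Sum.inr l) j + M i (Sum.inr l) * conj (N (Sum.inr l) j)) := by
  rw [Matrix.add_apply, Matrix.mul_apply, Matrix.mul_apply, Fintype.sum_sum_type, Fintype.sum_sum_type, Finset.sum_add_distrib]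
  simp only [Matrix.transpose_apply, mconj, Matrix.map_apply, hN, Finset.univ_unique, Finset.sum_singleton,
    PUnit.default_eq_unit, zero_mul, map_zero, mul_zero, zero_add]

theorem ct_lie (hg : IsKahler (tot κ halfPlane) S g) (w : κ → ℂ) {x : Unit ⊕ κ → ℂ} (hx : x ∈ tot κ halfPlane) (i j : Unit ⊕ κ) :
    -I * (dz i (fun y => conj (ct T w g y j)) x - dzbar j (fun y => ct T w g y i) x) = lie T w g x i j := by
  have hherm : ∀ a b, conj (g x a b) = g x b a := fun a b => (hg.pos x hx).isHermitian.apply b a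
  rw [dz_conj, ha_dzbar_ct hg w hx, ha_dzbar_ct hg w hx, lie, ha_fderiv, ha_mat _ _ (ha_trN_inl _ _)]
  have h1 : conj (-I * ∑ l, (dzbar i (fun y => g y j (Sum.inr l)) x * conj (T.per (bas x) w l) +
        g x j (Sum.inr l) * conj (trN T (bas x) w (Sum.inr l) i))) =
      I * ∑ l, (T.per (bas x) w l * dz (Sum.inr l) (fun y => g y i j) x +
        trN T (bas x) w (Sum.inr l) i * g x (Sum.inr l) j) := by
    rw [map_mul, map_neg, conj_I, neg_neg, map_sum]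
    congr 1
    refine Finset.sum_congr rfl fun l _ => ?_
    rw [map_add, map_mul, map_mul, conj_conj, conj_conj, conj_entry_dzbar ha_open hg hx, hherm,
      hg.closed x hx (Sum.inr l) j i]
    ring
  have h2 : ∑ l, (dzbar j (fun y => g y i (Sum.inr l)) x * conj (T.per (bas x) w l) +
        g x i (Sum.inr l) * conj (trN T (bas x) w (Sum.inr l) j)) =
      ∑ l, (conj (T.per (bas x) w l) * dzbar (Sum.inr l) (fun y => g y i j) x +
        g x i (Sum.inr l) * conj (trN T (bas x) w (Sum.inr l) j)) := by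
    refine Finset.sum_congr rfl fun l _ => ?_
    rw [closed_bar ha_open hg hx i (Sum.inr l) j]
    ring
  rw [h1, h2]
  have hI : I * I = -1 := I_mul_I
  simp only [Finset.sum_add_distrib]
  linear_combination (-(∑ l, T.per (bas x) w l * dz (Sum.inr l) (fun y => g y i j) x) -
    (∑ l, trN T (bas x) w (Sum.inr l) i * g x (Sum.inr l) j) -
    (∑ l, conj (T.per (bas x) w l) * dzbar (Sum.inr l) (fun y => g y i j) x) -
    ∑ l, g x i (Sum.inr l) * conj (trN T (bas x) w (Sum.inr l) j)) * hI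

/-- the derivative at `0` -/
private theorem ha_deriv0 (hg : IsKahler (tot κ halfPlane) S g) (w : κ → ℂ) {x : Unit ⊕ κ → ℂ} (hx : x ∈ tot κ halfPlane)
    (i j : Unit ⊕ κ) : HasDerivAt (fun s : ℝ => pbt T (s • w) g x i j) (lie T w g x i j) 0 := by
  obtain ⟨v, hv⟩ : ∃ v, v = (pt 0 (T.per (bas x) w) : Unit ⊕ κ → ℂ) := ⟨_, rfl⟩
  obtain ⟨N, hN⟩ : ∃ N, N = trN T (bas x) w := ⟨_, rfl⟩
  have htr : ∀ s : ℝ, T.tr (s • w) x = x + s • v := by
    intro s
    unfold TorusFamily.tr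
    rw [per_smul, hv, smul_pt]
    congr 2
  have hpbt : ∀ s : ℝ, pbt T (s • w) g x i j =
      ∑ k, ∑ l, ((1 : Matrix (Unit ⊕ κ) (Unit ⊕ κ) ℂ) k i + (s : ℂ) * N k i) * g (x + s • v) k l *
        ((1 : Matrix (Unit ⊕ κ) (Unit ⊕ κ) ℂ) l j + (s : ℂ) * conj (N l j)) := by
    intro s
    unfold pbt
    rw [conj_entry, htr s, trJ_smul T hx, ← hN]
    refine Finset.sum_congr rfl fun k _ => Finset.sum_congr rfl fun l _ => ?_
    have e1 : ∀ a b, (1 + (s : ℂ) • N) a b = (1 : Matrix (Unit ⊕ κ) (Unit ⊕ κ) ℂ) a b + (s : ℂ) * N a b := by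
      intro a b
      rw [Matrix.add_apply, Matrix.smul_apply, smul_eq_mul]
    have e2 : conj ((1 : Matrix (Unit ⊕ κ) (Unit ⊕ κ) ℂ) l j) = (1 : Matrix (Unit ⊕ κ) (Unit ⊕ κ) ℂ) l j := by
      rw [Matrix.one_apply]
      split_ifs <;> simp
    rw [e1, e1, map_add, map_mul, conj_ofReal, e2]
  have hcast : HasDerivAt (fun s : ℝ => (s : ℂ)) 1 0 := Complex.ofRealCLM.hasDerivAt
  have ha : ∀ k, HasDerivAt (fun s : ℝ => (1 : Matrix (Unit ⊕ κ) (Unit ⊕ κ) ℂ) k i + (s : ℂ) * N k i) (N k i) 0 := by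
    intro k
    have h1 := (hcast.mul_const (N k i)).const_add ((1 : Matrix (Unit ⊕ κ) (Unit ⊕ κ) ℂ) k i)
    rwa [one_mul] at h1
  have hc : ∀ l, HasDerivAt (fun s : ℝ => (1 : Matrix (Unit ⊕ κ) (Unit ⊕ κ) ℂ) l j + (s : ℂ) * conj (N l j))
      (conj (N l j)) 0 := by
    intro l
    have h1 := (hcast.mul_const (conj (N l j))).const_add ((1 : Matrix (Unit ⊕ κ) (Unit ⊕ κ) ℂ) l j)
    rwa [one_mul] at h1
  have hb : ∀ k l, HasDerivAt (fun s : ℝ => g (x + s • v) k l) (fderiv ℝ (fun y => g y k l) x v) 0 := by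
    intro k l
    have h1 : HasDerivAt (fun s : ℝ => x + s • v) v 0 := by
      have h2 : HasDerivAt (fun s : ℝ => x + s • v) ((1 : ℝ) • v) 0 :=
        ((hasDerivAt_id (0 : ℝ)).smul_const v).const_add x
      rwa [one_smul] at h2
    have h3 : HasFDerivAt (fun y => g y k l) (fderiv ℝ (fun y => g y k l) x) (x + (0 : ℝ) • v) := by
      rw [zero_smul, add_zero]
      exact (ha_diff hg hx k l).hasFDerivAt
    exact h3.comp_hasDerivAt (0 : ℝ) h1
  have hsum : HasDerivAt (fun s : ℝ => pbt T (s • w) g x i j)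
      (∑ k, ∑ l, ((N k i * g x k l + (1 : Matrix (Unit ⊕ κ) (Unit ⊕ κ) ℂ) k i * fderiv ℝ (fun y => g y k l) x v) *
        (1 : Matrix (Unit ⊕ κ) (Unit ⊕ κ) ℂ) l j +
        (1 : Matrix (Unit ⊕ κ) (Unit ⊕ κ) ℂ) k i * g x k l * conj (N l j))) 0 := by
    have h0 : (fun s : ℝ => pbt T (s • w) g x i j) = fun s : ℝ =>
        ∑ k, ∑ l, ((1 : Matrix (Unit ⊕ κ) (Unit ⊕ κ) ℂ) k i + (s : ℂ) * N k i) * g (x + s • v) k l *
        ((1 : Matrix (Unit ⊕ κ) (Unit ⊕ κ) ℂ) l j + (s : ℂ) * conj (N l j)) := funext hpbt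
    rw [h0]
    refine HasDerivAt.fun_sum fun k _ => HasDerivAt.fun_sum fun l _ => ?_
    have h1 := ((ha k).fun_mul (hb k l)).fun_mul (hc l)
    simpa only [Complex.ofReal_zero, zero_mul, add_zero, zero_smul] using h1
  convert hsum using 1
  rw [lie, ← hv, ← hN]
  have e0 : ∀ k l, ((N k i * g x k l + (1 : Matrix (Unit ⊕ κ) (Unit ⊕ κ) ℂ) k i * fderiv ℝ (fun y => g y k l) x v) *
        (1 : Matrix (Unit ⊕ κ) (Unit ⊕ κ) ℂ) l j +
        (1 : Matrix (Unit ⊕ κ) (Unit ⊕ κ) ℂ) k i * g x k l * conj (N l j)) =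
      (if l = j then N k i * g x k l else 0) + ((if k = i then (if l = j then fderiv ℝ (fun y => g y k l) x v else 0) else 0) +
        (if k = i then g x k l * conj (N l j) else 0)) := by
    intro k l
    rw [Matrix.one_apply, Matrix.one_apply]
    split_ifs <;> ring
  simp only [e0, Finset.sum_add_distrib, Finset.sum_ite_eq', Finset.mem_univ, if_true]
  have e1 : ∑ k, ∑ l, (if k = i then (if l = j then fderiv ℝ (fun y => g y k l) x v else 0) else 0) =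
      fderiv ℝ (fun y => g y i j) x v := by
    rw [Finset.sum_eq_single i]
    · simp
    · intro k _ hk
      simp [hk]
    · intro h
      exact absurd (Finset.mem_univ _) h
  have e2 : ∑ k, ∑ l, (if k = i then g x k l * conj (N l j) else 0) = (g x * mconj N) i j := by
    rw [Finset.sum_eq_single i]
    · simp [Matrix.mul_apply, mconj]
    · intro k _ hk
      simp [hk]
    · intro h
      exact absurd (Finset.mem_univ _) h
  have e3 : ∑ k, N k i * g x k j = (Nᵀ * g x) i j := by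
    simp [Matrix.mul_apply]
  rw [e1, e2, e3, Matrix.add_apply]
  ring

theorem pbt_deriv (hg : IsKahler (tot κ halfPlane) S g) (w : κ → ℂ) {x : Unit ⊕ κ → ℂ} (hx : x ∈ tot κ halfPlane) (i j : Unit ⊕ κ) (s : ℝ) :
    HasDerivAt (fun s : ℝ => pbt T (s • w) g x i j) (lie T w (pbt T (s • w) g) x i j) s := by
  have h1 := ha_deriv0 (T := T) (pbt_isKahler (T := T) hg (s • w)) w hx i j
  have h2 : HasDerivAt (fun r : ℝ => pbt T ((r - s) • w) (pbt T (s • w) g) x i j) (lie T w (pbt T (s • w) g) x i j) s := by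
    refine HasDerivAt.comp_sub_const (f := fun r : ℝ => pbt T (r • w) (pbt T (s • w) g) x i j) s s ?_
    rw [sub_self]
    exact h1
  have h3 : (fun r : ℝ => pbt T ((r - s) • w) (pbt T (s • w) g) x i j) = fun r : ℝ => pbt T (r • w) g x i j := by
    funext r
    rw [pbt_pbt _ _ hx, ← add_smul, sub_add_cancel]
  rw [h3] at h2
  exact h2

end TFam
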