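import Pool.Agent.Lib.MP_464db4_gt.TF.GeoF
import Pool.Agent.Lib.MP_464db4_gt.YT.Part

/-!
# TF-Sum: the function `∑ χ(γ t) f_γ` for a cocycle `f_γ`
Port of KG/Sum.lean (only `bas_F`, `F_mem` are used of the maps `T.F γ`).
-/

namespace TFam

open Complex Matrix MeasureTheory YT
open scoped ContDiff ComplexConjugate ComplexOrder

variable {κ : Type} [Fintype κ] [DecidableEq κ] {Γ : Subgroup (Matrix.SpecialLinearGroup (Fin 2) ℝ)} {T : TorusFamily κ Γ}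
  {f : Γ → (Unit ⊕ κ → ℂ) → ℝ} {χ : (Unit → ℂ) → ℝ} {K : Set (Unit → ℂ)}

/-- `∑ χ(γ t) f_γ(x)` -/
noncomputable def sumf (Γ : Subgroup (Matrix.SpecialLinearGroup (Fin 2) ℝ)) (χ : (Unit → ℂ) → ℝ) (f : Γ → (Unit ⊕ κ → ℂ) → ℝ)
    (x : Unit ⊕ κ → ℂ) : ℝ := ∑ᶠ γ : Γ, χ (mob γ (bas x)) * f γ x

private theorem sum_term_zero {f : Γ → (Unit ⊕ κ → ℂ) → ℝ} (h0 : ∀ x, x ∉ K → χ x = 0) {γ : Γ} {x : Unit ⊕ κ → ℂ}
    (hx : mob γ (bas x) ∉ K) : χ (mob γ (bas x)) * f γ x = 0 := by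
  rw [h0 _ hx, zero_mul]

theorem sumf_smooth (hΓ : CocompactFuchsian Γ) (hχ : ContDiff ℝ ∞ χ) (hK : IsCompact K) (hKH : K ⊆ halfPlane) (h0 : ∀ x, x ∉ K → χ x = 0)
    (hf : ∀ γ, ContDiffOn ℝ ∞ (fun x => ((f γ x : ℝ) : ℂ)) (tot κ halfPlane)) :
    ContDiffOn ℝ ∞ (fun x => ((sumf Γ χ f x : ℝ) : ℂ)) (tot κ halfPlane) := by
  intro x hx
  obtain ⟨V, hV, hxV, hVH, hfin⟩ := loc_finite hΓ hK hKH (show bas x ∈ halfPlane from hx)
  have hopen : IsOpen (tot κ halfPlane) := isOpen_tot isOpen_halfPlane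
  have hVo : IsOpen (tot κ V) := isOpen_tot hV
  have h1 : ContDiffAt ℝ ∞ (fun y : Unit ⊕ κ → ℂ => ∑ γ ∈ hfin.toFinset, ((χ (mob γ (bas y)) : ℝ) : ℂ) * ((f γ y : ℝ) : ℂ)) x := by
    refine ContDiffAt.sum fun γ _ => ?_
    have h2 : ContDiffOn ℝ ∞ (fun b => ((χ (mob γ b) : ℝ) : ℂ)) halfPlane := by
      have h3 : ContDiffOn ℝ ∞ (mob γ) halfPlane := hol_contDiffOn isOpen_halfPlane (mob_hol γ)
      exact (Complex.ofRealCLM.contDiff.comp hχ).comp_contDiffOn h3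
    have h4 : ContDiffAt ℝ ∞ (fun y : Unit ⊕ κ → ℂ => ((χ (mob γ (bas y)) : ℝ) : ℂ)) x :=
      (contDiffOn_bas (κ := κ) h2).contDiffAt (hopen.mem_nhds hx)
    exact h4.mul ((hf γ).contDiffAt (hopen.mem_nhds hx))
  have h5 : (fun y => ((sumf Γ χ f y : ℝ) : ℂ)) =ᶠ[nhds x]
      fun y : Unit ⊕ κ → ℂ => ∑ γ ∈ hfin.toFinset, ((χ (mob γ (bas y)) : ℝ) : ℂ) * ((f γ y : ℝ) : ℂ) := by
    filter_upwards [hVo.mem_nhds (show x ∈ tot κ V from hxV)] with y hy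
    have h6 : sumf Γ χ f y = ∑ γ ∈ hfin.toFinset, χ (mob γ (bas y)) * f γ y := by
      refine finsum_eq_sum_of_support_subset _ ?_
      intro γ hγ
      rw [Set.Finite.coe_toFinset]
      by_contra hn
      exact hγ (sum_term_zero h0 fun hy' => hn ⟨bas y, hy, hy'⟩)
    rw [h6, Complex.ofReal_sum]
    refine Finset.sum_congr rfl fun γ _ => ?_
    rw [Complex.ofReal_mul]
  exact (h1.congr_of_eventuallyEq h5).contDiffWithinAt

theorem sumf_F (hΓ : CocompactFuchsian Γ) (hK : IsCompact K) (hKH : K ⊆ halfPlane) (h0 : ∀ x, x ∉ K → χ x = 0)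
    (h1 : ∀ x ∈ halfPlane, ∑ᶠ γ : Γ, ((χ (mob γ x) : ℝ) : ℂ) = 1)
    (hf : ∀ γ δ : Γ, ∀ x ∈ tot κ halfPlane, f (γ * δ) x = f γ (T.F δ x) + f δ x) (δ : Γ) {x : Unit ⊕ κ → ℂ} (hx : x ∈ tot κ halfPlane) :
    sumf Γ χ f (T.F δ x) = sumf Γ χ f x - f δ x := by
  have hb : bas x ∈ halfPlane := hx
  have hfin : (Function.support fun γ : Γ => χ (mob γ (bas x))).Finite := by
    refine (finite_supp hΓ hK hKH hb).subset ?_
    intro γ hγ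
    by_contra hn
    exact hγ (h0 _ hn)
  have hone : ∑ᶠ γ : Γ, χ (mob γ (bas x)) = 1 := by
    have h2 : ((∑ᶠ γ : Γ, χ (mob γ (bas x)) : ℝ) : ℂ) = ∑ᶠ γ : Γ, ((χ (mob γ (bas x)) : ℝ) : ℂ) :=
      Complex.ofRealHom.toAddMonoidHom.map_finsum hfin
    rw [h1 _ hb] at h2
    exact_mod_cast h2
  have h3 : ∀ γ : Γ, χ (mob γ (bas (T.F δ x))) * f γ (T.F δ x) =
      χ (mob ((γ * δ : Γ) : Matrix.SpecialLinearGroup (Fin 2) ℝ) (bas x)) * (f (γ * δ) x - f δ x) := by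
    intro γ
    rw [bas_F, Subgroup.coe_mul, mob_mul _ _ hb, hf γ δ x hx]
    ring
  have h4 : ∑ᶠ γ : Γ, χ (mob ((γ * δ : Γ) : Matrix.SpecialLinearGroup (Fin 2) ℝ) (bas x)) * (f (γ * δ) x - f δ x) =
      ∑ᶠ γ : Γ, χ (mob γ (bas x)) * (f γ x - f δ x) :=
    finsum_comp_equiv (f := fun γ : Γ => χ (mob γ (bas x)) * (f γ x - f δ x)) (Equiv.mulRight δ)
  have hs1 : (Function.support fun γ : Γ => χ (mob γ (bas x)) * f γ x).Finite :=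
    hfin.subset fun γ hγ => left_ne_zero_of_mul hγ
  have hs2 : (Function.support fun γ : Γ => χ (mob γ (bas x)) * f δ x).Finite :=
    hfin.subset fun γ hγ => left_ne_zero_of_mul hγ
  calc sumf Γ χ f (T.F δ x) = ∑ᶠ γ : Γ, χ (mob γ (bas x)) * (f γ x - f δ x) := by
        rw [← h4]
        exact finsum_congr h3
    _ = ∑ᶠ γ : Γ, (χ (mob γ (bas x)) * f γ x - χ (mob γ (bas x)) * f δ x) := finsum_congr fun γ => by ring
    _ = ∑ᶠ γ : Γ, χ (mob γ (bas x)) * f γ x - ∑ᶠ γ : Γ, χ (mob γ (bas x)) * f δ x := finsum_sub_distrib hs1 hs2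
    _ = sumf Γ χ f x - f δ x := by
        rw [← finsum_mul, hone, one_mul]
        rfl

theorem sumf_tr {v : κ → ℂ} {x : Unit ⊕ κ → ℂ} (hf : ∀ γ : Γ, f γ (T.tr v x) = f γ x) : sumf Γ χ f (T.tr v x) = sumf Γ χ f x := by
  unfold sumf
  refine finsum_congr fun γ => ?_
  have h : bas (T.tr v x) = bas x := bas_add_pt x _
  rw [h, hf γ]

end TFam
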