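import Pool.Agent.Lib.MP_464db4_gt.TF.Flat
import Pool.Agent.Lib.MP_464db4_gt.KT.Res

/-!
# TF-Res: every Kaehler class of a family of complex tori over a compact hyperbolic curve contains a metric of constant scalar curvature
-/

namespace TFam

open Complex Matrix MeasureTheory YT
open scoped ContDiff ComplexConjugate ComplexOrder

variable {κ : Type} [Fintype κ] [DecidableEq κ] {Γ : Subgroup (Matrix.SpecialLinearGroup (Fin 2) ℝ)}
  {gm : (Unit ⊕ κ → ℂ) → Matrix (Unit ⊕ κ) (Unit ⊕ κ) ℂ}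

theorem covers_total (T : TorusFamily κ Γ) : Covers Γ T.total := by
  refine ⟨?_, ?_, ?_⟩
  · rintro F (⟨γ, rfl⟩ | ⟨v, _, rfl⟩)
    · exact F_hol T γ
    · exact tr_hol T v
  · rintro F (⟨γ, rfl⟩ | ⟨v, _, rfl⟩)
    · exact ⟨γ, γ.2, fun x _ => bas_F T γ x⟩
    · exact ⟨1, Γ.one_mem, fun x _ => by rw [bas_tr, mob_one]⟩
  · intro γ hγ
    exact ⟨T.F ⟨γ, hγ⟩, Or.inl ⟨⟨γ, hγ⟩, rfl⟩, fun x _ => bas_F T ⟨γ, hγ⟩ x⟩

theorem trJ_det (T : TorusFamily κ Γ) (b : Unit → ℂ) (v : κ → ℂ) : (trJ T b v).det = 1 := by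
  unfold trJ
  rw [det_fromBlocks_zero₁₂, det_one, det_one, one_mul]

theorem isSemiFlat_of_flat (T : TorusFamily κ Γ) (h : ∀ w, ∀ x ∈ tot κ halfPlane, pbt T w gm x = gm x) : IsSemiFlat gm := by
  have key : ∀ x ∈ tot κ halfPlane, ∃ v : κ → ℂ,
      (trJ T (bas x) v)ᵀ * gm x * mconj (trJ T (bas x) v) = gm (pt (bas x) 0) := by
    intro x hx
    have hb : bas x ∈ halfPlane := hx
    obtain ⟨v, hv⟩ := (T.bij (bas x) hb).2 (fib x)
    have h0 : (pt (bas x) 0 : Unit ⊕ κ → ℂ) ∈ tot κ halfPlane := pt_mem_tot hb 0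
    have e1 : T.tr v (pt (bas x) 0) = x := by
      have e2 : T.per (bas x) v = fib x := hv
      funext k
      rcases k with k | k
      · show x (Sum.inl k) + 0 = x (Sum.inl k)
        rw [add_zero]
      · show 0 + T.per (bas x) v k = x (Sum.inr k)
        rw [e2, zero_add]
        rfl
    refine ⟨v, ?_⟩
    have h1 := h v _ h0
    unfold pbt at h1
    rw [e1] at h1
    exact h1
  refine ⟨fun x hx => ?_, fun x hx => ?_⟩
  · obtain ⟨v, hv⟩ := key x hx
    have h2 := congrArg Matrix.toBlocks₂₂ hv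
    rw [← h2]
    unfold trJ
    conv_rhs => rw [← fromBlocks_toBlocks (gm x)]
    rw [mconj, fromBlocks_map, fromBlocks_transpose, fromBlocks_multiply, fromBlocks_multiply, toBlocks_fromBlocks₂₂]
    simp
  · obtain ⟨v, hv⟩ := key x hx
    have h2 := congrArg Matrix.det hv
    rw [det_mul, det_mul, det_transpose, trJ_det] at h2
    have h3 : (mconj (trJ T (bas x) v)).det = 1 := by
      have h4 := RingHom.map_det (starRingEnd ℂ) (trJ T (bas x) v)
      rw [trJ_det, map_one] at h4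
      exact h4.symm
    rw [h3, one_mul, mul_one] at h2
    exact h2

/-- Every Kaehler class of the total space of a holomorphic family of complex tori over a compact hyperbolic curve contains a metric of constant scalar curvature. -/
theorem family (hΓ : CocompactFuchsian Γ) (T : TorusFamily κ Γ) : EveryClassCscK (tot κ halfPlane) T.total := by
  intro g hg
  obtain ⟨gm, hgm, hc, hf⟩ := exists_flat hΓ T hg
  obtain ⟨g', hg', hc', hs⟩ := semiflat hΓ (covers_total T) hgm (isSemiFlat_of_flat T hf)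
  exact ⟨g', hg', coh_trans (isOpen_tot isOpen_halfPlane) hc hc', hs⟩

end TFam
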